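import Mathlib

set_option autoImplicit false

/-!
# MP_f8d954_co: rank-preserving interval realizers need not exist

The disjoint union of a two-element chain and a three-element chain has interval dimension `2`, but
it has no rank-preserving interval realizer at all, whatever the number of interval orders.
-/

namespace Pool.Agent.Results.MP_f8d954_co.NoRankPreservingRealizer

/-- `r` is a (reflexive) order on `P` that is an interval order: there are no four points
`a b c d` with `a ⊏ c`, `b ⊏ d`, `b ⋢ c` and `a ⋢ d`. -/
def IsIntervalOrder {P : Type} (r : P → P → Prop) : Prop :=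
  (∀ a, r a a) ∧ (∀ a b c, r a b → r b c → r a c) ∧ (∀ a b, r a b → r b a → a = b) ∧
    ¬ ∃ a b c d : P, (r a c ∧ a ≠ c) ∧ (r b d ∧ b ≠ d) ∧ ¬ r b c ∧ ¬ r a d

/-- The orders `L 1, …, L k` are interval orders whose intersection is the order of `P`. -/
def IsIntervalRealizer {P : Type} [PartialOrder P] {k : ℕ} (L : Fin k → P → P → Prop) : Prop :=
  (∀ j, IsIntervalOrder (L j)) ∧ ∀ x y : P, x ≤ y ↔ ∀ j, L j x y

/-- The interval dimension: the least `k` for which there is an interval realizer consisting of `k`
interval orders. -/
noncomputable def intervalDim (P : Type) [PartialOrder P] : ℕ :=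
  sInf {k : ℕ | ∃ L : Fin k → P → P → Prop, IsIntervalRealizer L}

/-- The rank of `p` in the order `r`: the largest `m` such that there is a chain
`c 0 ⊏ c 1 ⊏ … ⊏ c m = p` (so the chain has `m + 1` elements and largest element `p`). -/
noncomputable def rank {P : Type} (r : P → P → Prop) (p : P) : ℕ :=
  sSup {m : ℕ | ∃ c : Fin (m + 1) → P,
    (∀ i j, i < j → r (c i) (c j) ∧ c i ≠ c j) ∧ c (Fin.last m) = p}

/-- The five points: `a < c` and `b₀ < b < d`. -/
inductive Pt : Type
  | a | c | b₀ | b | d
  deriving DecidableEq

open Pt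

instance : Fintype Pt := ⟨{a, c, b₀, b, d}, by intro x; cases x <;> decide⟩

/-- The order of the disjoint union of the chains `a < c` and `b₀ < b < d`. -/
def leTable (i j : Pt) : Prop :=
  i = j ∨ (i = a ∧ j = c) ∨ (i = b₀ ∧ j = b) ∨ (i = b₀ ∧ j = d) ∨ (i = b ∧ j = d)

instance : DecidableRel leTable := fun i j => by unfold leTable; infer_instance

instance : PartialOrder Pt where
  le := leTable
  le_refl := by decide
  le_trans := by decide
  le_antisymm := by decide

instance : DecidableRel (fun i j : Pt => i ≤ j) := fun i j => inferInstanceAs (Decidable (leTable i j))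

theorem le_def (i j : Pt) : i ≤ j ↔ leTable i j := Iff.rfl

/-- Heights for two linear orders with intersection `leTable`. -/
def pos (k : Fin 2) : Pt → ℕ
  | a => if k = 0 then 0 else 3
  | c => if k = 0 then 1 else 4
  | b₀ => if k = 0 then 2 else 0
  | b => if k = 0 then 3 else 1
  | d => if k = 0 then 4 else 2

theorem card_le_of_chain {P : Type} [Fintype P] (r : P → P → Prop) (p : P) (m : ℕ)
    (h : ∃ c : Fin (m + 1) → P, (∀ i j, i < j → r (c i) (c j) ∧ c i ≠ c j) ∧
      c (Fin.last m) = p) : m ≤ Fintype.card P := by
  obtain ⟨c, hc, -⟩ := h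
  have hinj : Function.Injective c := by
    intro i j hij
    by_contra hne
    rcases lt_or_gt_of_ne hne with h | h
    · exact (hc i j h).2 hij
    · exact (hc j i h).2 hij.symm
  have := Fintype.card_le_of_injective c hinj
  rw [Fintype.card_fin] at this
  omega

theorem bddAbove_chain {P : Type} [Fintype P] (r : P → P → Prop) (p : P) :
    BddAbove {m : ℕ | ∃ c : Fin (m + 1) → P,
      (∀ i j, i < j → r (c i) (c j) ∧ c i ≠ c j) ∧ c (Fin.last m) = p} :=
  ⟨Fintype.card P, fun m hm => card_le_of_chain r p m hm⟩

/-- A chain of `m + 1` elements with largest element `p` shows that the rank is at least `m`. -/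
theorem le_rank {P : Type} [Fintype P] (r : P → P → Prop) (p : P) (m : ℕ)
    (c : Fin (m + 1) → P) (hc : ∀ i j, i < j → r (c i) (c j) ∧ c i ≠ c j)
    (hp : c (Fin.last m) = p) : m ≤ rank r p :=
  le_csSup (bddAbove_chain r p) ⟨c, hc, hp⟩

/-- In the poset `Pt` the rank of `c` is `1`. -/
theorem rank_c : rank (fun i j : Pt => i ≤ j) c ≤ 1 := by
  unfold rank
  apply csSup_le
  · exact ⟨0, fun _ => c, fun i j h => absurd h (by omega), rfl⟩
  · rintro m ⟨f, hf, hlast⟩
    by_contra hm
    push Not at hm
    have h1 := hf ⟨m - 1, by omega⟩ (Fin.last m) (by rw [Fin.lt_def]; simp; omega)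
    have h0 := hf ⟨m - 2, by omega⟩ ⟨m - 1, by omega⟩ (by rw [Fin.lt_def]; simp; omega)
    rw [hlast] at h1
    have key : ∀ u v : Pt, ¬ ((leTable u v ∧ u ≠ v) ∧ (leTable v c ∧ v ≠ c)) := by decide
    exact key _ _ ⟨h0, h1⟩

theorem interval_of_linear {P : Type} (f : P → ℕ) (hf : Function.Injective f) :
    IsIntervalOrder (fun x y : P => f x ≤ f y) := by
  refine ⟨fun a => le_rfl, fun a b c h1 h2 => le_trans h1 h2,
    fun a b h1 h2 => hf (le_antisymm h1 h2), ?_⟩
  rintro ⟨a, b, c, d, ⟨h1, -⟩, ⟨h2, -⟩, h3, h4⟩
  simp only at h1 h2 h3 h4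
  omega

theorem pos_inj (k : Fin 2) : Function.Injective (pos k) := by
  have : ∀ (k : Fin 2) (x y : Pt), pos k x = pos k y → x = y := by decide
  exact fun x y h => this k x y h

theorem realizer_two : ∃ L : Fin 2 → Pt → Pt → Prop, IsIntervalRealizer L := by
  refine ⟨fun k x y => pos k x ≤ pos k y, fun k => interval_of_linear _ (pos_inj k), ?_⟩
  have : ∀ x y : Pt, leTable x y ↔ ∀ k : Fin 2, pos k x ≤ pos k y := by decide
  exact this

/-- The order of `Pt` is not an interval order, so its interval dimension is `2`. -/
theorem intervalDim_eq : intervalDim Pt = 2 := by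
  unfold intervalDim
  apply le_antisymm
  · exact Nat.sInf_le realizer_two
  · apply le_csInf ⟨2, realizer_two⟩
    rintro k ⟨L, hL, hint⟩
    by_contra hk
    push Not at hk
    interval_cases k
    · have h1 : (c : Pt) ≤ a := (hint c a).2 (fun j => j.elim0)
      exact absurd h1 (by decide)
    · have hiff : ∀ x y : Pt, x ≤ y ↔ L 0 x y := by
        intro x y
        rw [hint x y]
        constructor
        · intro h; exact h 0
        · intro h j
          rw [Subsingleton.elim j 0]
          exact h
      apply (hL 0).2.2.2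
      refine ⟨a, b, c, d, ⟨(hiff _ _).1 (by decide), by decide⟩,
        ⟨(hiff _ _).1 (by decide), by decide⟩, ?_, ?_⟩
      · intro h; exact absurd ((hiff _ _).2 h) (by decide)
      · intro h; exact absurd ((hiff _ _).2 h) (by decide)

/-- There is a finite ordered set of interval dimension `2` that has no rank-preserving interval
realizer: for no `k` are there `k` interval orders with intersection the given order in each of
which every point has the same rank as in the given order. -/
theorem result : ∃ (P : Type) (_ : Fintype P) (_ : PartialOrder P), intervalDim P = 2 ∧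
    ∀ (k : ℕ) (L : Fin k → P → P → Prop), IsIntervalRealizer L →
      ¬ ∀ (j : Fin k) (p : P), rank (L j) p = rank (fun x y : P => x ≤ y) p := by
  refine ⟨Pt, inferInstance, inferInstance, intervalDim_eq, ?_⟩
  rintro k L ⟨hL, hint⟩ hrank
  -- every order `L j` has `a ⊑ d`
  have key : ∀ j, L j a d := by
    intro j
    obtain ⟨-, -, -, hno⟩ := hL j
    have hac : L j a c := (hint a c).1 (by decide) j
    have hbd : L j b d := (hint b d).1 (by decide) j
    have hb0 : L j b₀ b := (hint b₀ b).1 (by decide) j
    by_contra had
    have hbc : L j b c := by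
      by_contra hbc
      exact hno ⟨a, b, c, d, ⟨hac, by decide⟩, ⟨hbd, by decide⟩, hbc, had⟩
    have hb0c : L j b₀ c := (hL j).2.1 _ _ _ hb0 hbc
    -- the chain `b₀ ⊏ b ⊏ c` shows that the rank of `c` is at least `2`
    have h2 : 2 ≤ rank (L j) c := by
      refine le_rank (L j) c 2 (fun i => if i = 0 then b₀ else if i = 1 then b else c) ?_ ?_
      · intro i i' hii
        fin_cases i <;> fin_cases i' <;>
          first
          | exact absurd hii (by decide)
          | exact ⟨hb0, by decide⟩
          | exact ⟨hb0c, by decide⟩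
          | exact ⟨hbc, by decide⟩
      · rfl
    have h1 := rank_c
    rw [hrank j c] at h2
    omega
  have : (a : Pt) ≤ d := (hint a d).2 key
  exact absurd this (by decide)

end Pool.Agent.Results.MP_f8d954_co.NoRankPreservingRealizer
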